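import Pool.Agent.Helper24.GT.Defs

namespace Helper24.GT

/-- `p` places the vertices of `G` in the plane as a geometric drawing: different vertices get
different points, and no edge (closed segment) passes through a vertex other than its two
endpoints. -/
def IsGeometricDrawing {V : Type*} (G : SimpleGraph V) (p : V → ℝ × ℝ) : Prop :=
  Function.Injective p ∧
    ∀ a b : V, G.Adj a b → ∀ v : V, v ≠ a → v ≠ b → p v ∉ segment ℝ (p a) (p b)

/-- The segments `p a, p b` and `p c, p d` share a point that is not a common endpoint of the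
edges `ab` and `cd`. -/
def Cross {V : Type*} (p : V → ℝ × ℝ) (a b c d : V) : Prop :=
  ∃ x : ℝ × ℝ, x ∈ segment ℝ (p a) (p b) ∧ x ∈ segment ℝ (p c) (p d) ∧
    ¬ ∃ v : V, (v = a ∨ v = b) ∧ (v = c ∨ v = d) ∧ x = p v

/-- `G` has a geometric drawing whose edges can be coloured with `k` colours so that no two
different edges of the same colour cross. -/
def DrawableIn {V : Type*} (G : SimpleGraph V) (k : ℕ) : Prop :=
  ∃ (p : V → ℝ × ℝ) (col : Sym2 V → Fin k), IsGeometricDrawing G p ∧
    ∀ a b c d : V, G.Adj a b → G.Adj c d → s(a, b) ≠ s(c, d) → col s(a, b) = col s(c, d) →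
      ¬ Cross p a b c d

/-- The geometric thickness: the least `k` such that `G` is drawable in `k` plane layers. -/
noncomputable def geometricThickness {V : Type*} (G : SimpleGraph V) : ℕ :=
  sInf {k : ℕ | DrawableIn G k}

/-- A drawing of the complete graph in `t` layers gives coordinates with injective `X`. -/
theorem exists_coordinates {V : Type*} [Fintype V] {t : ℕ}
    (h : DrawableIn (⊤ : SimpleGraph V) t) :
    ∃ (X W : V → ℝ) (L : Fin t → SimpleGraph V), Function.Injective X ∧ GP X W ∧
      (∀ i, Pln X W (L i)) ∧ (∀ u v : V, u ≠ v → ∃ i, (L i).Adj u v) ∧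
      (∀ u v : V, ∀ i j, (L i).Adj u v → (L j).Adj u v → i = j) := by
  sorry

end Helper24.GT
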