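import Mathlib

namespace Helper24.GT

/-- Final asymptotic computation. -/
theorem final_numeric (c : ℝ) (hc : c < (21 - Real.sqrt 329) / 16) :
    ∃ N : ℕ, ∀ n : ℕ, N ≤ n → ∀ t : ℕ, 2 * t ≤ n →
      (∀ w : ℕ, 0 < w → (n : ℝ) * (n - 1) / 2 + 8 / 7 * t ^ 2 ≤
        3 * n * t + 8 * t * (t / w + 1) ^ 2 + 4 * w * t + 1) → c * n ≤ t := by
  sorry

end Helper24.GT
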