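import Pool.Agent.Helper24.GT.St.K1

namespace Helper24.GT

/-- **Corner lemma**: sum of the box lemma over the boxes of a grid with windows of length `w`. -/
theorem corner_bound {V : Type*} [Fintype V] {t : ℕ} {X Y : V → ℝ} {L : Fin t → SimpleGraph V}
    (h : Layered X Y L) (w : ℕ) (hw : 0 < w) (C : Finset V)
    (hC : ∀ v, v ∈ C ↔ rk X v < t ∧ rk Y v < t) :
    3 * ∑ v ∈ C, np X Y L v ≤
      (∑ v ∈ C, (rk X v + rk Y v + mm X Y v)) + 6 * t * (t / w + 1) ^ 2 + 6 * w * C.card := by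
  sorry

end Helper24.GT
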