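import Pool.Agent.Helper24.GT.St.K0
import Pool.Agent.Helper24.GT.St.K2

namespace Helper24.GT

/-- Main counting inequality.  `A`, `B` are the `t` lowest and highest vertices for `X`, `C`, `D`
those for `Y`; `P₁ = (A ∩ C) ∪ (B ∩ D)`, `P₂ = (A ∩ D) ∪ (B ∩ C)`. -/
theorem np_total {V : Type*} [Fintype V] {t : ℕ} {X Y : V → ℝ} {L : Fin t → SimpleGraph V}
    (h : Layered X Y L) (ht : 2 * t ≤ Fintype.card V) (w : ℕ) (hw : 0 < w) (P₁ P₂ : Finset V)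
    (hP₁ : ∀ v, v ∈ P₁ ↔ (rk X v < t ∧ rk Y v < t) ∨
      (rk (fun u => - X u) v < t ∧ rk (fun u => - Y u) v < t))
    (hP₂ : ∀ v, v ∈ P₂ ↔ (rk X v < t ∧ rk (fun u => - Y u) v < t) ∨
      (rk (fun u => - X u) v < t ∧ rk Y v < t)) :
    (12 * ∑ v, np X Y L v : ℤ) ≤ 12 * Fintype.card V * t - 12 * t * (t + 1)
      - 2 * P₁.card * P₂.card - 3 * (2 * t - P₁.card - P₂.card) ^ 2
      + 96 * t * (t / w + 1 : ℕ) ^ 2 + 48 * w * t := by
  sorry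

end Helper24.GT
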