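import Pool.Agent.Helper24.GT.St.K0

namespace Helper24.GT

/-- **Choice of the second direction.**  For `Y = W + s X` and `s` going from `+∞` to `-∞` the
order of the vertices changes from that of `X` to that of `-X`; at each critical value of `s`
only disjoint pairs of vertices of consecutive ranks are exchanged (no three vertices are
collinear), so that `|P₁| - |P₂|` changes by at most `4`. -/
theorem exists_shear {V : Type*} [Fintype V] {X W : V → ℝ} (hX : Function.Injective X)
    (hgp : GP X W) {t : ℕ} (ht : 2 * t ≤ Fintype.card V) :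
    ∃ s : ℝ, Function.Injective (fun v => W v + s * X v) ∧
      ∀ P₁ P₂ : Finset V,
        (∀ v, v ∈ P₁ ↔ (rk X v < t ∧ rk (fun u => W u + s * X u) v < t) ∨
          (rk (fun u => - X u) v < t ∧ rk (fun u => - (W u + s * X u)) v < t)) →
        (∀ v, v ∈ P₂ ↔ (rk X v < t ∧ rk (fun u => - (W u + s * X u)) v < t) ∨
          (rk (fun u => - X u) v < t ∧ rk (fun u => W u + s * X u) v < t)) →
        |(P₁.card : ℤ) - P₂.card| ≤ 4 := by
  sorry

end Helper24.GT
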