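import Pool.Agent.Helper24.GT.Defs

namespace Helper24.GT

/-- Passing a vertex `z` in the sweep: the edges crossing the line at `s' < X z` are, from bottom
to top, those passing below `z`, those ending at `z`, those passing above `z`; the edges crossing
the line at `s > X z` are those passing below, those starting at `z`, those passing above. -/
theorem slab_split {V : Type*} [Fintype V] {X Y : V → ℝ} (hX : Function.Injective X)
    (hgp : GP X Y) {G : SimpleGraph V} (hG : Pln X Y G) (z : V) {s' s : ℝ} (h1 : s' < X z)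
    (h2 : X z < s) (hs : ∀ v, v ≠ z → X v < s' ∨ s < X v) {l : List (V × V)}
    (hl : IsSlab X Y G s' l) :
    ∃ A L R B : List (V × V), l = A ++ L ++ B ∧ IsSlab X Y G s (A ++ R ++ B) ∧
      (∀ e, e ∈ L ↔ e.2 = z ∧ G.Adj z e.1 ∧ X e.1 < X z) ∧
      (∀ e, e ∈ R ↔ e.1 = z ∧ G.Adj z e.2 ∧ X z < X e.2) ∧
      L.length = dL X G z ∧ R.length = dR X G z ∧
      (L.map (fun e => slp X Y e.1 e.2)).Pairwise (fun x y => y < x) ∧
      (R.map (fun e => slp X Y e.1 e.2)).Pairwise (fun x y => x < y) := by
  sorry

end Helper24.GT
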