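import Pool.Agent.Helper24.GT.St.EL
import Pool.Agent.Helper24.GT.St.ES

namespace Helper24.GT

/-- **Lemma E.** A plane straight-line graph on `n` points, no three of them collinear, satisfies
`#edges + #pointed vertices ≤ 3 n`.  (`∑ v, dL X G v` is the number of edges.) -/
theorem edges_add_pointed {V : Type*} [Fintype V] {X Y : V → ℝ} (hX : Function.Injective X)
    (hgp : GP X Y) {G : SimpleGraph V} (hG : Pln X Y G) :
    (∑ v, dL X G v) + cnt (fun v => Pointed X Y G v) ≤ 3 * Fintype.card V := by
  sorry

end Helper24.GT
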