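import Pool.Agent.Helper24.GT.Defs

namespace Helper24.GT

/-- Replacing a strictly decreasing block `L` by a strictly increasing block `R` inside a list:
`L` carries `L.length - 1` descents, `R` carries none, and the (at most two) junctions can create
at most two new descents, at most one if `R` is empty. -/
theorem desc_block (A B L R : List ℝ) (hL : L.Pairwise (fun x y => y < x))
    (hR : R.Pairwise (fun x y => x < y)) :
    desc (A ++ R ++ B) + (L.length - 1) ≤ desc (A ++ L ++ B) + (if R = [] then 1 else 2) := by
  sorry

/-- If both blocks are non-empty and separated, at most one junction can create a new descent: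
if all of `R` is below all of `L`, then a descent (last R, first B) comes from the old descent
(last L, first B); if all of `L` is below all of `R`, then a descent (last A, first R) comes from
the old descent (last A, first L). -/
theorem desc_block_pass (A B L R : List ℝ) (hL : L.Pairwise (fun x y => y < x))
    (hR : R.Pairwise (fun x y => x < y)) (hL0 : L ≠ []) (hR0 : R ≠ [])
    (h : (∀ x ∈ L, ∀ y ∈ R, y < x) ∨ (∀ x ∈ L, ∀ y ∈ R, x < y)) :
    desc (A ++ R ++ B) + (L.length - 1) ≤ desc (A ++ L ++ B) + 1 := by
  sorry

end Helper24.GT
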