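import Pool.Agent.Helper24.GT.Defs

namespace Helper24.GT

/-- The path `x₁ - v - x₂` as a function of the abscissa. -/
noncomputable def pth {V : Type*} (X Y : V → ℝ) (x₁ v x₂ : V) (x : ℝ) : ℝ :=
  if x ≤ X v then ht X Y x₁ v x else ht X Y v x₂ x

/-- A vertex `w` above the path `x₁ - v - x₂` (`x₁` to the north-west, `x₂` to the south-east of
both `v` and `w`) has no neighbour `u` to the south-west of both `v` and `w`: the edge `w u`
would cross the path. -/
theorem no_sw_of_above {V : Type*} {X Y : V → ℝ} (hX : Function.Injective X)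
    {G : SimpleGraph V} (hG : Pln X Y G) {x₁ x₂ v w u : V} (hvw : v ≠ w)
    (a1 : G.Adj v x₁) (a2 : G.Adj v x₂) (a3 : G.Adj w u)
    (h1 : X x₁ < X v) (h1' : X x₁ < X w) (h2 : X v < X x₂) (h2' : X w < X x₂)
    (k1 : Y v < Y x₁) (k1' : Y w < Y x₁) (k2 : Y x₂ < Y v) (k2' : Y x₂ < Y w)
    (u1 : X u < X v) (u1' : X u < X w) (u2 : Y u < Y v) (u2' : Y u < Y w)
    (hab : pth X Y x₁ v x₂ (X w) < Y w) : False := by
  sorry

/-- A vertex `w` below the path `x₁ - v - x₂` has no neighbour `u` to the north-east of both `v`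
and `w` (the mirror image of `no_sw_of_above` under the point reflection). -/
theorem no_ne_of_below {V : Type*} {X Y : V → ℝ} (hX : Function.Injective X)
    {G : SimpleGraph V} (hG : Pln X Y G) {x₁ x₂ v w u : V} (hvw : v ≠ w)
    (a1 : G.Adj v x₁) (a2 : G.Adj v x₂) (a3 : G.Adj w u)
    (h1 : X x₁ < X v) (h1' : X x₁ < X w) (h2 : X v < X x₂) (h2' : X w < X x₂)
    (k1 : Y v < Y x₁) (k1' : Y w < Y x₁) (k2 : Y x₂ < Y v) (k2' : Y x₂ < Y w)
    (u1 : X v < X u) (u1' : X w < X u) (u2 : Y v < Y u) (u2' : Y w < Y u)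
    (hbe : Y w < pth X Y x₁ v x₂ (X w)) : False := by
  sorry

/-- Two such paths: it is impossible that each of `v`, `w` lies above the path of the other, and
impossible that each lies below the path of the other.  Stated for `X v < X w`. -/
theorem above_iff_below {V : Type*} {X Y : V → ℝ} (hX : Function.Injective X) (hgp : GP X Y)
    {G : SimpleGraph V} (hG : Pln X Y G) {x₁ x₂ v y₁ y₂ w : V} (hvw : X v < X w)
    (a1 : G.Adj v x₁) (a2 : G.Adj v x₂) (b1 : G.Adj w y₁) (b2 : G.Adj w y₂)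
    (h1 : X x₁ < X v) (h2 : X w < X x₂) (k1 : X y₁ < X v) (k2 : X w < X y₂) :
    pth X Y y₁ w y₂ (X v) < Y v ↔ Y w < pth X Y x₁ v x₂ (X w) := by
  sorry

/-- No vertex lies on such a path. -/
theorem pth_ne {V : Type*} {X Y : V → ℝ} (hgp : GP X Y) {x₁ x₂ v w : V} (hvw : v ≠ w)
    (h1 : X x₁ < X v) (h2 : X v < X x₂) (h1' : x₁ ≠ w) (h2' : x₂ ≠ w) :
    pth X Y x₁ v x₂ (X w) ≠ Y w := by
  sorry

/-- A vertex with at most two neighbours is pointed. -/
theorem three_nbrs {V : Type*} [Fintype V] {X Y : V → ℝ} (hX : Function.Injective X)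
    (hgp : GP X Y) {G : SimpleGraph V} {v : V} (h : ¬ Pointed X Y G v) :
    3 ≤ cnt (fun u => G.Adj v u) := by
  sorry

end Helper24.GT
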