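import Pool.Agent.Helper24.GT.St.G1

namespace Helper24.GT

/-- **Cluster lemma** (one layer).  `N` is a set of non-pointed vertices such that every
neighbour of a vertex of `N` lies to the left of all of `N` or to the right of all of `N`, and
below all of `N` or above all of `N`. -/
theorem cluster {V : Type*} [Fintype V] {X Y : V → ℝ} (hX : Function.Injective X)
    (hY : Function.Injective Y) (hgp : GP X Y) {G : SimpleGraph V} (hG : Pln X Y G)
    (N : Finset V) (hN : ∀ v ∈ N, ¬ Pointed X Y G v)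
    (hNX : ∀ v ∈ N, ∀ u, G.Adj v u → (∀ w ∈ N, X u < X w) ∨ (∀ w ∈ N, X w < X u))
    (hNY : ∀ v ∈ N, ∀ u, G.Adj v u → (∀ w ∈ N, Y u < Y w) ∨ (∀ w ∈ N, Y w < Y u)) :
    3 * N.card ≤ 6 + ∑ v ∈ N, (3 * cnt (fun u => G.Adj v u ∧ X u < X v ∧ Y u < Y v) +
      cnt (fun u => G.Adj v u ∧ X u < X v ∧ Y v < Y u) +
      cnt (fun u => G.Adj v u ∧ X v < X u ∧ Y u < Y v)) := by
  sorry

end Helper24.GT
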