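import Pool.Agent.Helper24.GT.Defs

namespace Helper24.GT

/-- Baseline: a layer in which `v` is not pointed contains an edge from `v` to the left. -/
theorem np_le_rk {V : Type*} [Fintype V] {t : ℕ} {X Y : V → ℝ} {L : Fin t → SimpleGraph V}
    (h : Layered X Y L) (v : V) : np X Y L v ≤ rk X v := by
  sorry

theorem np_le_rk' {V : Type*} [Fintype V] {t : ℕ} {X Y : V → ℝ} {L : Fin t → SimpleGraph V}
    (h : Layered X Y L) (v : V) : np X Y L v ≤ rk Y v := by
  sorry

theorem np_le {V : Type*} {t : ℕ} (X Y : V → ℝ) (L : Fin t → SimpleGraph V) (v : V) :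
    np X Y L v ≤ t := by
  sorry

/-- `rk (-X) v + rk X v = n - 1`. -/
theorem rk_neg {V : Type*} [Fintype V] {X : V → ℝ} (hX : Function.Injective X) (v : V) :
    rk X v + rk (fun u => - X u) v + 1 = Fintype.card V := by
  sorry

/-- The rank is a bijection onto `{0, …, n-1}`. -/
theorem rk_inj {V : Type*} [Fintype V] {X : V → ℝ} (hX : Function.Injective X) :
    Function.Injective (rk X) := by
  sorry

theorem rk_lt {V : Type*} [Fintype V] (X : V → ℝ) (v : V) : rk X v < Fintype.card V := by
  sorry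

theorem rk_lt_rk {V : Type*} [Fintype V] {X : V → ℝ} {u v : V} :
    rk X u < rk X v ↔ X u < X v := by
  sorry

theorem exists_rk_eq {V : Type*} [Fintype V] {X : V → ℝ} (hX : Function.Injective X) {k : ℕ}
    (hk : k < Fintype.card V) : ∃ v, rk X v = k := by
  sorry

/-- `∑ (t - rank)` over the `t` lowest vertices. -/
theorem sum_rk_low {V : Type*} [Fintype V] {X : V → ℝ} (hX : Function.Injective X) {t : ℕ}
    (ht : t ≤ Fintype.card V) (A : Finset V) (hA : ∀ v, v ∈ A ↔ rk X v < t) :
    A.card = t ∧ 2 * ∑ v ∈ A, rk X v + t = t ^ 2 := by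
  sorry

/-- `∑_{v ∈ S} (t - rank v) ≥ |S| (|S| + 1) / 2` for a set `S` of vertices of rank `< t`. -/
theorem sum_rk_subset {V : Type*} [Fintype V] {X : V → ℝ} (hX : Function.Injective X) {t : ℕ}
    (S : Finset V) (hS : ∀ v ∈ S, rk X v < t) :
    2 * ∑ v ∈ S, rk X v + S.card * (S.card + 1) ≤ 2 * t * S.card := by
  sorry

/-- The layers partition the pairs: Lemma E summed over the layers. -/
theorem total_edges {V : Type*} [Fintype V] {t : ℕ} {X Y : V → ℝ} {L : Fin t → SimpleGraph V}
    (h : Layered X Y L) :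
    ∑ i, ∑ v, dL X (L i) v = Fintype.card V * (Fintype.card V - 1) / 2 := by
  sorry

end Helper24.GT
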