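import Pool.Agent.Helper24.GT.St.GG

namespace Helper24.GT

/-- **Box lemma.**  `Z` is the set of vertices whose `X`-rank lies in the window `[i0, i1)` and
whose `Y`-rank lies in the window `[j0, j1)`. -/
theorem box_bound {V : Type*} [Fintype V] {t : ℕ} {X Y : V → ℝ} {L : Fin t → SimpleGraph V}
    (h : Layered X Y L) (i0 i1 j0 j1 : ℕ) (Z : Finset V)
    (hZ : ∀ v, v ∈ Z ↔ (i0 ≤ rk X v ∧ rk X v < i1) ∧ (j0 ≤ rk Y v ∧ rk Y v < j1)) :
    3 * ∑ v ∈ Z, np X Y L v ≤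
      (∑ v ∈ Z, (rk X v + rk Y v + mm X Y v)) + 6 * t + 3 * Z.card * ((i1 - i0) + (j1 - j0)) := by
  sorry

end Helper24.GT
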