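import Pool.Agent.Helper24.GT.St.EI
import Pool.Agent.Helper24.GT.St.K3
import Pool.Agent.Helper24.GT.St.R
import Pool.Agent.Helper24.GT.St.D
import Pool.Agent.Helper24.GT.St.F

namespace Helper24.GT

/-- Main theorem: for every `c < (21 - √329) / 16` and all large `n`, every straight-line drawing
of `K_n` needs at least `c n` plane layers. -/
theorem main (c : ℝ) (hc : c < (21 - Real.sqrt 329) / 16) :
    ∃ N : ℕ, ∀ n : ℕ, N ≤ n → ∀ t : ℕ, DrawableIn (⊤ : SimpleGraph (Fin n)) t → c * n ≤ t := by
  sorry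

end Helper24.GT
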